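import Pool.Agent.P8H27.EQ.Defs

/-!
# Definitions: special points and the orbits of large subgroups of the Galois group
-/

set_option autoImplicit false

namespace Pool.Agent.P8H27.LJ

open MeasureTheory
open Pool.Agent.P8H27.EQ (mean)

/-- **Special points** of a space `Y` with an action of the group `G`: a `G`-stable set `pts` of points, with a
`G`-invariant number `disc`, such that the orbits `G z` are finite and a normal subgroup `E` of `G` of index at
most `degree` acts on `G z` through a commutative group, for all `z ∈ pts`.

For a connected component `Y` of a Shimura variety and `G` the Galois group of a number field over which `Y` is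
defined, the special points have this property: the reflex field of a special point has bounded degree, and over
its Galois closure the Galois group acts on the points conjugate to `z` through a commutative group (reciprocity
law). The number `disc` is any measure of complexity, for example the discriminant of the center of the
endomorphism ring of a CM abelian variety. -/
structure SpecialPoints (G : Type) [Group G] (Y : Type) [MulAction G Y] where
  pts : Set Y
  disc : Y → ℕ
  degree : ℕ
  stable : ∀ g : G, ∀ z ∈ pts, g • z ∈ pts
  disc_smul : ∀ g : G, ∀ z ∈ pts, disc (g • z) = disc z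
  finite : ∀ z ∈ pts, (MulAction.orbit G z).Finite
  abelian : ∀ z ∈ pts, ∃ E : Subgroup G, E.Normal ∧ E.index ≠ 0 ∧ E.index ≤ degree ∧
    ∀ σ ∈ E, ∀ τ ∈ E, ∀ y ∈ MulAction.orbit G z, σ • τ • y = τ • σ • y

/-- The orbit `V z` of the subgroup `V` of `G` is large: it has at least `disc ^ (-η)` times as many elements as
the orbit `G z`. If `G` is the Galois group of `F` and `V` the one of the extension `K` of `F`, this says that the
degree of `z` over `K` is at least the degree of `z` over `F`, divided by `disc ^ η`. -/
def IsLarge {G : Type} [Group G] {Y : Type} [MulAction G Y] (S : SpecialPoints G Y) (η : ℝ)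
    (V : Subgroup G) (z : Y) : Prop :=
  (Nat.card (MulAction.orbit G z) : ℝ) ≤ (S.disc z : ℝ) ^ η * Nat.card (MulAction.orbit V z)

/-- **The orbits of large subgroups converge**: the means of `f` over the large orbits `V z` of all special points
`z` and of all subgroups `V` of `G` converge to the integral of `f`, uniformly. -/
def LargeOrbitsConverge {G : Type} [Group G] {Y : Type} [MulAction G Y] [MeasurableSpace Y] (η : ℝ)
    (μ : ProbabilityMeasure Y) (S : SpecialPoints G Y) (f : Y → ℝ) : Prop :=
  ∀ ε : ℝ, 0 < ε → ∃ D₀ : ℕ, ∀ z ∈ S.pts, D₀ ≤ S.disc z → ∀ V : Subgroup G, IsLarge S η V z →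
    |mean f (fun y : MulAction.orbit V z => (y : Y)) - ∫ y, f y ∂(μ : Measure Y)| ≤ ε

/-- The subgroup of the elements of `U` which fix all coordinates of `x` except for the coordinate `j`: the Galois
group of the field of definition of the other coordinates over the field of `U`. -/
def others {G : Type} [Group G] {r : ℕ} {Y : Fin r → Type} [∀ j, MulAction G (Y j)] (U : Subgroup G)
    (x : ∀ j, Y j) (j : Fin r) : Subgroup G where
  carrier := {g | g ∈ U ∧ ∀ k, k ≠ j → g • x k = x k}
  one_mem' := ⟨U.one_mem, fun k _ => one_smul _ _⟩
  mul_mem' := fun ha hb => ⟨U.mul_mem ha.1 hb.1, fun k hk => by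
    rw [mul_smul, hb.2 k hk, ha.2 k hk]⟩
  inv_mem' := fun ha => ⟨U.inv_mem ha.1, fun k hk => by
    rw [inv_smul_eq_iff, ha.2 k hk]⟩

end Pool.Agent.P8H27.LJ
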