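import Pool.Agent.P8H27.LJ.Sz
import Pool.Agent.P8H27.EQ.Var

/-!
# Rates of equidistribution of large joint orbits
-/

set_option autoImplicit false

namespace Pool.Agent.P8H27.LJ

open MeasureTheory Filter Topology
open Pool.Agent.P8H27.EQ (mean mean_eq_sum mean_congr orb pmean abs_prod_sub)

/-- **Rate of equidistribution of the large orbits**: the means of `g` over the large orbits `V z` of the special
points `z`, `V` a subgroup of `G`, differ from the integral of `g` by at most `C disc ^ (-δ)`. -/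
def LargeOrbitsRate {G : Type} [Group G] {Y : Type} [MulAction G Y] [MeasurableSpace Y] (η δ C : ℝ)
    (μ : ProbabilityMeasure Y) (S : SpecialPoints G Y) (g : Y → ℝ) : Prop :=
  ∀ z ∈ S.pts, ∀ V : Subgroup G, IsLarge S η V z →
    |mean g (fun y : MulAction.orbit V z => (y : Y)) - ∫ y, g y ∂(μ : Measure Y)| ≤
      C * (S.disc z : ℝ) ^ (-δ)

/-- the mean of a bounded function is bounded -/
theorem mean_le_one {B Z : Type} (f : Z → ℝ) (hf : ∀ z, |f z| ≤ 1) (φ : B → Z) :
    |mean f φ| ≤ 1 := by
  classical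
  rcases finite_or_infinite B with hB | hB
  · have : Fintype B := Fintype.ofFinite B
    rw [mean_eq_sum, abs_div, Nat.abs_cast]
    apply div_le_one_of_le₀ _ (Nat.cast_nonneg _)
    refine (Finset.abs_sum_le_sum_abs _ _).trans ?_
    refine (Finset.sum_le_sum fun b _ => hf _).trans ?_
    rw [Finset.sum_const, Finset.card_univ, nsmul_eq_mul, mul_one]
  · unfold mean
    rw [Nat.card_eq_zero_of_infinite, Nat.cast_zero, div_zero, abs_zero]
    exact zero_le_one

theorem effective {G : Type} [Group G] {r : ℕ} {Y : Fin r → Type} [∀ j, MulAction G (Y j)]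
    [∀ j, MeasurableSpace (Y j)] (μ : ∀ j, ProbabilityMeasure (Y j))
    (S : ∀ j, SpecialPoints G (Y j)) {η η' : ℝ} (hη : η' < η) (δ C : Fin r → ℝ) (g : ∀ j, Y j → ℝ)
    (hg : ∀ j y, |g j y| ≤ 1) (hR : ∀ j, LargeOrbitsRate η (δ j) (C j) (μ j) (S j) (g j)) :
    ∃ D₀ : ℕ, ∀ x : ∀ j, Y j, (∀ j, x j ∈ (S j).pts ∧ D₀ ≤ (S j).disc (x j)) →
      ∀ U : Subgroup G, (∀ j, IsLarge (S j) η' (others U x j) (x j)) →
      |mean (fun z : ∀ j, Y j => ∏ j, g j (z j))
          (fun y : MulAction.orbit U x => (y : ∀ j, Y j)) -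
        ∏ j, ∫ y, g j y ∂(μ j : Measure (Y j))| ≤ ∑ j, C j * ((S j).disc (x j) : ℝ) ^ (-δ j) := by
  classical
  -- the constants
  have hev : ∀ j, ∃ D : ℕ, ∀ d : ℕ, D ≤ d →
      (((S j).degree * ∏ k, (S k).degree : ℕ) : ℝ) ≤ (d : ℝ) ^ (η - η') := by
    intro j
    have h1 : Tendsto (fun D : ℕ => (D : ℝ) ^ (η - η')) atTop atTop :=
      (tendsto_rpow_atTop (sub_pos.2 hη)).comp tendsto_natCast_atTop_atTop
    obtain ⟨D, h2⟩ := eventually_atTop.1
      (h1.eventually_ge_atTop (((S j).degree * ∏ k, (S k).degree : ℕ) : ℝ))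
    exact ⟨D, fun d hd => h2 d hd⟩
  choose D₁ hD₁ using hev
  refine ⟨max 1 (∑ j, D₁ j), fun x hx U hU => ?_⟩
  have hxS : ∀ j, x j ∈ (S j).pts := fun j => (hx j).1
  have hd1 : ∀ j, 1 ≤ (S j).disc (x j) := fun j => (le_max_left _ _).trans (hx j).2
  have hd2 : ∀ j, D₁ j ≤ (S j).disc (x j) := fun j =>
    (Finset.single_le_sum (f := D₁) (fun _ _ => Nat.zero_le _) (Finset.mem_univ j)).trans
      ((le_max_right _ _).trans (hx j).2)
  choose E hE hEi using fun j => good (S j) (hxS j)
  let p : ∀ j, Pk U (Y j) := fun j => mkPk (hE j) U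
  let x' : Tup p := fun j => ⟨x j, MulAction.mem_orbit_self (x j)⟩
  have hN : (N p).index ≤ ∏ k, (S k).degree := by
    refine (Subgroup.index_iInf_le _).trans (Finset.prod_le_prod' fun k _ => ?_)
    have : (E k).Normal := (hE k).normal
    have h1 : (E k).relIndex U ∣ (E k).index := Subgroup.relIndex_dvd_index_of_normal _ _
    exact (Nat.le_of_dvd (Nat.pos_of_ne_zero (hE k).index) h1).trans (hEi k)
  have hint : ∀ j, |∫ y, g j y ∂(μ j : Measure (Y j))| ≤ 1 := by
    intro j
    have h1 := norm_integral_le_of_norm_le_const (μ := (μ j : Measure (Y j))) (f := g j) (C := 1)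
      (Filter.Eventually.of_forall fun y => by rw [Real.norm_eq_abs]; exact hg j y)
    rw [Real.norm_eq_abs] at h1
    simpa using h1
  have hmain := near_G p (fun y : Tup p => ∏ j, g j (pt p y j)) x'
    (I := ∏ j, ∫ y, g j y ∂(μ j : Measure (Y j)))
    (ε := ∑ j, C j * ((S j).disc (x j) : ℝ) ^ (-δ j)) (by
    intro y hy z
    have hB : ∀ j, Fintype (Bj p y j) := fun j => Fintype.ofFinite _
    have h1 : mean (fun y : Tup p => ∏ j, g j (pt p y j))
        (fun b : ∀ j, Bj p y j => bmv p y b z) =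
        ∏ j, mean (g j) (fun b : Bj p y j => (((b : (p j).A) • z.fn j : (p j).pts) : Y j)) := by
      rw [mean_eq_sum]
      have h2 := pmean (A := fun j => Bj p y j) Finset.univ
        (fun j (b : Bj p y j) => g j (((b : (p j).A) • z.fn j : (p j).pts) : Y j))
      refine h2.trans ?_
      apply Finset.prod_congr rfl
      intro j _
      rw [mean_eq_sum]
    rw [h1]
    refine (abs_prod_sub Finset.univ _ _ (fun j => mean_le_one _ (hg j) _) hint).trans ?_
    apply Finset.sum_le_sum
    intro j _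
    have hpos : (0 : ℝ) < (S j).disc (x j) := by exact_mod_cast hd1 j
    -- the index of `Bj`
    have h0 : (0 : ℝ) ≤ ((S j).disc (x j) : ℝ) ^ η' := Real.rpow_nonneg hpos.le _
    have h3 : ((MulAction.orbit G (x j)).ncard : ℝ) * (MulAction.orbit U (res p j x')).ncard ≤
        ((S j).disc (x j) : ℝ) ^ η' * (MulAction.orbit U x').ncard := by
      have h4 := hU j
      unfold IsLarge at h4
      have h5 := card_mul U x j
      have h6 : Nat.card (MulAction.orbit U x) = (MulAction.orbit U x').ncard := orbit_card p x'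
      have h7 : Nat.card (MulAction.orbit U fun k : {k : Fin r // k ≠ j} => x k) =
          (MulAction.orbit U (res p j x')).ncard := orbit_rcard p j (res p j x')
      rw [h6, h7] at h5
      rw [← h5, ← Nat.card_coe_set_eq (MulAction.orbit G (x j))]
      have h8 : (0 : ℝ) ≤ (MulAction.orbit U (res p j x')).ncard := Nat.cast_nonneg _
      calc (Nat.card (MulAction.orbit G (x j)) : ℝ) * (MulAction.orbit U (res p j x')).ncard
          ≤ (((S j).disc (x j) : ℝ) ^ η' * Nat.card (MulAction.orbit (others U x j) (x j))) *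
            (MulAction.orbit U (res p j x')).ncard := mul_le_mul_of_nonneg_right h4 h8
        _ = _ := by
            push_cast
            ring
    have ha : ((MulAction.orbit (p j).A (y.fn j)).ncard : ℝ) ≤
        (MulAction.orbit G (x j)).ncard := by
      exact_mod_cast card_A_le (hE j) U (y.fn j)
    have h5 := index_Bj_le p j hy h0 ha h3
    -- apply the hypothesis
    have hz := (z.fn j).2
    obtain ⟨g', hg'⟩ : ∃ g' : G, g' • x j = (z.fn j : Y j) := hz
    have hzS : (z.fn j : Y j) ∈ (S j).pts := by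
      rw [← hg']
      exact (S j).stable g' _ (hxS j)
    have hzd : (S j).disc (z.fn j : Y j) = (S j).disc (x j) := by
      rw [← hg']
      exact (S j).disc_smul g' _ (hxS j)
    have h9 := hR j (z.fn j) hzS (VV (hE j) U (Bj p y j)) (by
      unfold IsLarge
      rw [hzd, Nat.card_coe_set_eq, Nat.card_coe_set_eq]
      have h10 : ((MulAction.orbit G (z.fn j : Y j)).ncard : ℝ) ≤
          (MulAction.orbit (VV (hE j) U (Bj p y j)) (z.fn j : Y j)).ncard *
            (Bj p y j).index * (E j).index := by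
        exact_mod_cast card_G_le (hE j) U (Bj p y j) (z.fn j)
      have h11 : (0 : ℝ) ≤ (MulAction.orbit (VV (hE j) U (Bj p y j)) (z.fn j : Y j)).ncard :=
        Nat.cast_nonneg _
      have h12 : ((E j).index : ℝ) ≤ (S j).degree := by exact_mod_cast hEi j
      have h13 : ((N p).index : ℝ) ≤ ((∏ k, (S k).degree : ℕ) : ℝ) := by exact_mod_cast hN
      have h14 := hD₁ j _ (hd2 j)
      calc ((MulAction.orbit G (z.fn j : Y j)).ncard : ℝ) ≤
          (MulAction.orbit (VV (hE j) U (Bj p y j)) (z.fn j : Y j)).ncard *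
            (Bj p y j).index * (E j).index := h10
        _ ≤ (MulAction.orbit (VV (hE j) U (Bj p y j)) (z.fn j : Y j)).ncard *
            (((∏ k, (S k).degree : ℕ) : ℝ) * ((S j).disc (x j) : ℝ) ^ η') * (S j).degree := by
          apply mul_le_mul _ h12 (Nat.cast_nonneg _)
            (mul_nonneg h11 (mul_nonneg (Nat.cast_nonneg _) h0))
          apply mul_le_mul_of_nonneg_left _ h11
          exact h5.trans (mul_le_mul_of_nonneg_right h13 h0)
        _ = (MulAction.orbit (VV (hE j) U (Bj p y j)) (z.fn j : Y j)).ncard *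
            ((S j).disc (x j) : ℝ) ^ η' * (((S j).degree * ∏ k, (S k).degree : ℕ) : ℝ) := by
          push_cast
          ring
        _ ≤ (MulAction.orbit (VV (hE j) U (Bj p y j)) (z.fn j : Y j)).ncard *
            ((S j).disc (x j) : ℝ) ^ η' * ((S j).disc (x j) : ℝ) ^ (η - η') :=
          mul_le_mul_of_nonneg_left h14 (mul_nonneg h11 h0)
        _ = ((S j).disc (x j) : ℝ) ^ η *
            (MulAction.orbit (VV (hE j) U (Bj p y j)) (z.fn j : Y j)).ncard := by
          rw [mul_assoc, ← Real.rpow_add hpos]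
          rw [show η' + (η - η') = η by ring]
          ring)
    rw [hzd, ← mean_B] at h9
    exact h9)
  have hO : mean (fun z : ∀ j, Y j => ∏ j, g j (z j))
      (fun y : MulAction.orbit U x => (y : ∀ j, Y j)) =
      mean (fun y : Tup p => ∏ j, g j (pt p y j))
        (fun y : MulAction.orbit U x' => (y : Tup p)) := by
    symm
    have h1 : ∀ y : MulAction.orbit U x', pt p y ∈ MulAction.orbit U x := by
      rintro ⟨_, ⟨g, rfl⟩⟩
      exact ⟨g, rfl⟩
    refine mean_congr (Equiv.ofBijective (fun y => ⟨pt p y, h1 y⟩) ⟨?_, ?_⟩) fun y => rfl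
    · intro y z h
      apply Subtype.ext
      exact pt_inj p (congrArg Subtype.val h)
    · rintro ⟨_, g, rfl⟩
      exact ⟨⟨g • x', ⟨g, rfl⟩⟩, rfl⟩
  rw [hO]
  exact hmain

end Pool.Agent.P8H27.LJ
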