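import Pool.Agent.P8H27.LJ.Sz

/-!
# The uniform statement
-/

set_option autoImplicit false

namespace Pool.Agent.P8H27.LJ

open MeasureTheory Filter Topology
open scoped BoundedContinuousFunction ENNReal
open Pool.Agent.P8H27.EQ (mean mean_eq_sum mean_congr orb pim)

theorem orbit_top {G : Type} [Group G] {X : Type} [MulAction G X] (z : X) :
    MulAction.orbit (⊤ : Subgroup G) z = MulAction.orbit G z := by
  ext w
  constructor
  · rintro ⟨g, rfl⟩
    exact ⟨g, rfl⟩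
  · rintro ⟨g, rfl⟩
    exact ⟨⟨g, trivial⟩, rfl⟩

theorem mean_top {G : Type} [Group G] {X : Type} [MulAction G X] (z : X) (f : X → ℝ) :
    mean f (fun y : MulAction.orbit (⊤ : Subgroup G) z => (y : X)) =
      mean f (fun y : MulAction.orbit G z => (y : X)) :=
  mean_congr (Equiv.setCongr (orbit_top z)) fun _ => rfl

variable {G : Type} [Group G] {r : ℕ} {Y : Fin r → Type}
  [∀ j, MulAction G (Y j)] [∀ j, TopologicalSpace (Y j)] [∀ j, SecondCountableTopology (Y j)]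
  [∀ j, TopologicalSpace.PseudoMetrizableSpace (Y j)] [∀ j, MeasurableSpace (Y j)]
  [∀ j, BorelSpace (Y j)]

/-- **the uniform statement** -/
theorem uniform (μ : ∀ j, ProbabilityMeasure (Y j)) (S : ∀ j, SpecialPoints G (Y j))
    {η η' : ℝ} (hη : η' < η)
    (hμ : ∀ j, ∀ f : Y j →ᵇ ℝ, LargeOrbitsConverge η (μ j) (S j) f)
    (f : (∀ j, Y j) →ᵇ ℝ) (ε : ℝ) (hε : 0 < ε) :
    ∃ D₀ : ℕ, ∀ x : ∀ j, Y j, (∀ j, x j ∈ (S j).pts ∧ D₀ ≤ (S j).disc (x j)) →
      ∀ U : Subgroup G, (∀ j, IsLarge (S j) η' (others U x j) (x j)) →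
      |mean f (fun y : MulAction.orbit U x => (y : ∀ j, Y j)) -
        ∫ y, f y ∂(Measure.pi fun j => (μ j : Measure (Y j)))| ≤ ε := by
  by_contra hc
  push Not at hc
  choose x hx U hU hbad using hc
  have h1 := largeJoint μ S hη hμ x (fun i j => (hx i j).1)
    (fun j => tendsto_atTop_mono (fun i => (hx i j).2) tendsto_id) U
    (Filter.Eventually.of_forall fun i j => by
      have h2 := hU i j
      unfold IsLarge at h2
      have h3 := card_mul (U i) (x i) j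
      rw [← h3]
      have h4 : (0 : ℝ) ≤
          Nat.card (MulAction.orbit (U i) fun k : {k : Fin r // k ≠ j} => x i k) :=
        Nat.cast_nonneg _
      calc (Nat.card (MulAction.orbit G (x i j)) : ℝ) *
            Nat.card (MulAction.orbit (U i) fun k : {k : Fin r // k ≠ j} => x i k)
          ≤ (((S j).disc (x i j) : ℝ) ^ η' *
            Nat.card (MulAction.orbit (others (U i) (x i) j) (x i j))) *
            Nat.card (MulAction.orbit (U i) fun k : {k : Fin r // k ≠ j} => x i k) :=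
            mul_le_mul_of_nonneg_right h2 h4
        _ = _ := by
            push_cast
            ring) f
  rw [Metric.tendsto_atTop] at h1
  obtain ⟨i₀, hi₀⟩ := h1 ε hε
  have h2 := hi₀ i₀ le_rfl
  rw [Real.dist_eq] at h2
  exact absurd h2 (not_lt.2 (hbad i₀).le)

/-- **sequences with almost disjoint fields of definition** -/
theorem sequences (μ : ∀ j, ProbabilityMeasure (Y j)) (S : ∀ j, SpecialPoints G (Y j))
    {η η' : ℝ} (hη : η' < η)
    (hμ : ∀ j, ∀ f : Y j →ᵇ ℝ, LargeOrbitsConverge η (μ j) (S j) f)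
    (f : (∀ j, Y j) →ᵇ ℝ) (x : ℕ → ∀ j, Y j) (hx : ∀ i j, x i j ∈ (S j).pts)
    (hdisc : ∀ j, Tendsto (fun i => (S j).disc (x i j)) atTop atTop)
    (hsize : ∀ᶠ i in atTop, ∀ j, ((∏ k, Nat.card (MulAction.orbit G (x i k)) : ℕ) : ℝ) ≤
      ((S j).disc (x i j) : ℝ) ^ η' * Nat.card (MulAction.orbit G (x i))) :
    Tendsto (fun i => mean f (fun y : MulAction.orbit G (x i) => (y : ∀ j, Y j))) atTop
      (𝓝 (∫ y, f y ∂(Measure.pi fun j => (μ j : Measure (Y j))))) := by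
  rw [Metric.tendsto_atTop]
  intro ε hε
  obtain ⟨D₀, h1⟩ := uniform μ S hη hμ f (ε / 2) (half_pos hε)
  have h2 : ∀ᶠ i in atTop, ∀ j, D₀ ≤ (S j).disc (x i j) :=
    Filter.eventually_all.2 fun j => (hdisc j).eventually_ge_atTop D₀
  obtain ⟨i₀, hi₀⟩ := eventually_atTop.1 (h2.and hsize)
  refine ⟨i₀, fun i hi => ?_⟩
  obtain ⟨h3, h4⟩ := hi₀ i hi
  have h5 := h1 (x i) (fun j => ⟨hx i j, h3 j⟩) ⊤ (fun j =>
    large_of_prod S ⊤ (x i) (hx i) j (by
      rw [orbit_top]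
      exact h4 j))
  rw [mean_top] at h5
  rw [Real.dist_eq]
  exact lt_of_le_of_lt h5 (half_lt_self hε)

/-- **the product satisfies the same condition** -/
theorem robust (μ : ∀ j, ProbabilityMeasure (Y j)) (S : ∀ j, SpecialPoints G (Y j))
    {η η' δ : ℝ} (hη : η' + δ < η)
    (hμ : ∀ j, ∀ f : Y j →ᵇ ℝ, LargeOrbitsConverge η (μ j) (S j) f)
    (f : (∀ j, Y j) →ᵇ ℝ) (ε : ℝ) (hε : 0 < ε) :
    ∃ D₀ : ℕ, ∀ x : ∀ j, Y j, (∀ j, x j ∈ (S j).pts ∧ D₀ ≤ (S j).disc (x j)) →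
      (∀ j, IsLarge (S j) η' (others (⊤ : Subgroup G) x j) (x j)) → ∀ U : Subgroup G,
      (∀ j, (Nat.card (MulAction.orbit G x) : ℝ) ≤
        ((S j).disc (x j) : ℝ) ^ δ * Nat.card (MulAction.orbit U x)) →
      |mean f (fun y : MulAction.orbit U x => (y : ∀ j, Y j)) -
        ∫ y, f y ∂(Measure.pi fun j => (μ j : Measure (Y j)))| ≤ ε := by
  obtain ⟨D₀, h1⟩ := uniform μ S hη hμ f ε hε
  refine ⟨max 1 D₀, fun x hx hL U hU => ?_⟩
  exact h1 x (fun j => ⟨(hx j).1, (le_max_right _ _).trans (hx j).2⟩) U fun j =>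
    large_sub S U x (fun j => (hx j).1) j ((le_max_left _ _).trans (hx j).2) (hL j) (hU j)

end Pool.Agent.P8H27.LJ
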