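import Pool.Agent.P8H27.LJ.Rel

/-!
# Products of orbits of subgroups of small index
-/

set_option autoImplicit false

namespace Pool.Agent.P8H27.LJ

open MeasureTheory Filter Topology
open scoped BoundedContinuousFunction ENNReal
open Pool.Agent.P8H27.EQ (mean mean_eq_sum mean_congr orb pim)

variable {r : ℕ} {Y : Fin r → Type}
  [∀ j, TopologicalSpace (Y j)] [∀ j, SecondCountableTopology (Y j)]
  [∀ j, TopologicalSpace.PseudoMetrizableSpace (Y j)] [∀ j, MeasurableSpace (Y j)]
  [∀ j, BorelSpace (Y j)]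

theorem key (μ : ∀ j, ProbabilityMeasure (Y j)) {η : ℝ} (W : ℕ → Type) [∀ i, Group (W i)]
    [∀ i j, MulAction (W i) (Y j)] (p : ∀ i j, Pk (W i) (Y j)) (d : ℕ → Fin r → ℕ)
    (hdisc : ∀ j, Tendsto (fun i => d i j) atTop atTop) (x' : ∀ i, Tup (p i))
    (hμ : ∀ j, ∀ f : Y j →ᵇ ℝ, ∀ ε : ℝ, 0 < ε → ∃ D₀ : ℕ, ∀ i, D₀ ≤ d i j →
      ∀ B : Subgroup (p i j).A, (B.index : ℝ) ≤ (d i j : ℝ) ^ η → ∀ z : (p i j).pts,
      |mean f (fun b : B => (((b : (p i j).A) • z : (p i j).pts) : Y j)) -
        ∫ y, f y ∂(μ j : Measure (Y j))| ≤ ε)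
    (f : (∀ j, Y j) →ᵇ ℝ) (ε : ℝ) (hε : 0 < ε) :
    ∀ᶠ i in atTop, ∀ B : ∀ j, Subgroup (p i j).A,
      (∀ j, ((B j).index : ℝ) ≤ (d i j : ℝ) ^ η) → ∀ y : Tup (p i),
      |mean f (fun b : ∀ j, B j =>
        (fun j => ((((b j : (p i j).A)) • y.fn j : (p i j).pts) : Y j))) -
        ∫ y, f y ∂(Measure.pi fun j => (μ j : Measure (Y j)))| ≤ ε := by
  classical
  set I := ∫ y, f y ∂(Measure.pi fun j => (μ j : Measure (Y j))) with hI
  by_contra hc
  let bad : ∀ i, (∀ j, Subgroup (p i j).A) → Tup (p i) → Prop := fun i B y =>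
    ¬ |mean f (fun b : ∀ j, B j =>
      (fun j => ((((b j : (p i j).A)) • y.fn j : (p i j).pts) : Y j))) - I| ≤ ε
  let c : ∀ i, (∀ j, Subgroup (p i j).A) × Tup (p i) := fun i =>
    if h : ∃ By : (∀ j, Subgroup (p i j).A) × Tup (p i),
      (∀ j, ((By.1 j).index : ℝ) ≤ (d i j : ℝ) ^ η) ∧ bad i By.1 By.2 then h.choose
    else (fun _ => ⊤, x' i)
  have hy : ∀ i, (∃ By : (∀ j, Subgroup (p i j).A) × Tup (p i),
      (∀ j, ((By.1 j).index : ℝ) ≤ (d i j : ℝ) ^ η) ∧ bad i By.1 By.2) →
      bad i (c i).1 (c i).2 := by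
    intro i h
    have h1 : c i = h.choose := dif_pos h
    rw [h1]
    exact h.choose_spec.2
  by_cases hηpos : 0 ≤ η
  · have hidx : ∀ i j, 1 ≤ d i j →
        (((c i).1 j).index : ℝ) ≤ (d i j : ℝ) ^ η := by
      intro i j hd
      by_cases h : ∃ By : (∀ j, Subgroup (p i j).A) × Tup (p i),
        (∀ j, ((By.1 j).index : ℝ) ≤ (d i j : ℝ) ^ η) ∧ bad i By.1 By.2
      · have h1 : c i = h.choose := dif_pos h
        rw [h1]
        exact h.choose_spec.1 j
      · have h1 : c i = (fun _ => ⊤, x' i) := dif_neg h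
        rw [h1]
        show ((⊤ : Subgroup (p i j).A).index : ℝ) ≤ _
        rw [Subgroup.index_top, Nat.cast_one]
        exact Real.one_le_rpow (by exact_mod_cast hd) hηpos
    have hlim := pim r Y μ (fun i j => ((c i).1 j)) (fun i j => inferInstance)
      (fun i j => inferInstance)
      (fun i j b => (((b : (p i j).A) • (c i).2.fn j : (p i j).pts) : Y j))
      (by
        intro j g
        rw [Metric.tendsto_atTop]
        intro δ hδ
        obtain ⟨D₂, h3⟩ := hμ j g (δ / 2) (half_pos hδ)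
        obtain ⟨i₀, hi₀⟩ := eventually_atTop.1
          ((hdisc j).eventually_ge_atTop (max 1 D₂))
        refine ⟨i₀, fun i hi => ?_⟩
        have hD := hi₀ i hi
        have h4 := h3 i ((le_max_right _ _).trans hD) ((c i).1 j)
          (hidx i j ((le_max_left _ _).trans hD)) ((c i).2.fn j)
        rw [Real.dist_eq]
        exact lt_of_le_of_lt h4 (half_lt_self hδ))
      f
    have h5 : ∀ᶠ i in atTop, ¬ bad i (c i).1 (c i).2 := by
      rw [Metric.tendsto_atTop] at hlim
      obtain ⟨i₀, hi₀⟩ := hlim ε hε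
      refine eventually_atTop.2 ⟨i₀, fun i hi => ?_⟩
      have h6 := hi₀ i hi
      rw [Real.dist_eq] at h6
      exact not_not.2 h6.le
    apply hc
    filter_upwards [h5] with i hi B hB z
    by_contra hz
    exact hi (hy i ⟨(B, z), hB, hz⟩)
  · -- if `η < 0` then there are no subgroups of small index
    rcases Nat.eq_zero_or_pos r with hr | hr
    · subst hr
      apply hc
      refine Filter.Eventually.of_forall fun i B hB y => ?_
      have h1 : ∀ z : ∀ j, Y j, f z = I := by
        intro z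
        have h2 : (fun y : ∀ j, Y j => f y) = fun _ => f z := by
          funext y
          congr 1
          funext j
          exact j.elim0
        rw [hI, h2]
        simp
      have hfB : Fintype (∀ j, B j) := Fintype.ofFinite _
      rw [mean_eq_sum, Finset.sum_congr rfl fun b _ => h1 _, Finset.sum_const,
        Finset.card_univ, nsmul_eq_mul, mul_div_cancel_left₀, sub_self, abs_zero]
      · exact hε.le
      · exact_mod_cast Fintype.card_ne_zero
    · apply hc
      filter_upwards [(hdisc ⟨0, hr⟩).eventually_ge_atTop 2] with i hi B hB z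
      exfalso
      have h1 := hB ⟨0, hr⟩
      have h2 : (d i ⟨0, hr⟩ : ℝ) ^ η < 1 := by
        apply Real.rpow_lt_one_of_one_lt_of_neg
        · have : (2 : ℝ) ≤ d i ⟨0, hr⟩ := by exact_mod_cast hi
          linarith
        · push Not at hηpos
          exact hηpos
      have h3 : (1 : ℝ) ≤ (B ⟨0, hr⟩).index := by
        exact_mod_cast Nat.pos_of_ne_zero Subgroup.index_ne_zero_of_finite
      linarith

end Pool.Agent.P8H27.LJ
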