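import Pool.Agent.P8H27.LJ.Pk
import Pool.Agent.P8H27.EQ.Orb
import Pool.Agent.P8H27.LJ.Defs

/-!
# The packet of a point with an abelian orbit
-/

set_option autoImplicit false

namespace Pool.Agent.P8H27.LJ

open Pool.Agent.P8H27.EQ (mean mean_eq_sum mean_congr orb)

/-- the size of an orbit of a subgroup -/
theorem orbit_ncard_le {H X : Type} [Group H] [MulAction H X] (K : Subgroup H) (hK : K.index ≠ 0) (z : X)
    (hfin : (MulAction.orbit H z).Finite) :
    (MulAction.orbit H z).ncard ≤ (MulAction.orbit K z).ncard * K.index := by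
  have hKfin : (MulAction.orbit K z).Finite := by
    refine hfin.subset ?_
    rintro _ ⟨σ, rfl⟩
    exact ⟨σ, rfl⟩
  have h1 : (MulAction.stabilizer H z ⊓ K).relIndex K * K.index =
      (MulAction.stabilizer H z ⊓ K).index :=
    Subgroup.relIndex_mul_index inf_le_right
  rw [Subgroup.inf_relIndex_right] at h1
  have h2 : (MulAction.stabilizer H z).relIndex K = (MulAction.orbit K z).ncard := by
    have h4 : (MulAction.stabilizer H z).relIndex K =
        (MulAction.stabilizer K z).index := rfl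
    rw [h4, MulAction.index_stabilizer]
  have h3 : (MulAction.orbit H z).ncard = (MulAction.stabilizer H z).index :=
    (MulAction.index_stabilizer H z).symm
  rw [h3, ← h2, h1]
  have h5 : (MulAction.stabilizer H z ⊓ K).index ≠ 0 := by
    rw [← h1, h2]
    exact mul_ne_zero (Set.ncard_ne_zero_of_mem (MulAction.mem_orbit_self z) hKfin) hK
  exact Nat.le_of_dvd (Nat.pos_of_ne_zero h5) (Subgroup.index_dvd_of_le inf_le_left)

section mk

variable {G : Type} [Group G] {Y : Type} [MulAction G Y]

/-- the orbit of `z₀` is finite, and the normal subgroup `E` of finite index acts on it through a commutative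
group -/
structure Good (E : Subgroup G) (z₀ : Y) : Prop where
  normal : E.Normal
  index : E.index ≠ 0
  fin : (MulAction.orbit G z₀).Finite
  comm : ∀ σ ∈ E, ∀ τ ∈ E, ∀ y ∈ MulAction.orbit G z₀, σ • τ • y = τ • σ • y

/-- the action on the orbit -/
def hm (E : Subgroup G) (z₀ : Y) : E →* Equiv.Perm (MulAction.orbit G z₀) :=
  MulAction.toPermHom E (MulAction.orbit G z₀)

theorem hm_apply (E : Subgroup G) (z₀ : Y) (σ : E) (z : MulAction.orbit G z₀) :
    ((hm E z₀ σ z : MulAction.orbit G z₀) : Y) = (σ : G) • (z : Y) := rfl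

/-- the image -/
def Im (E : Subgroup G) (z₀ : Y) : Type := (hm E z₀).range

/-- the map to the image -/
@[reducible] noncomputable def cg {E : Subgroup G} {z₀ : Y} (h : Good E z₀) : CommGroup (Im E z₀) :=
  { (inferInstanceAs (Group (hm E z₀).range) : Group (Im E z₀)) with
    mul_comm := by
      rintro ⟨_, σ, rfl⟩ ⟨_, τ, rfl⟩
      apply Subtype.ext
      apply Equiv.ext
      intro y
      apply Subtype.ext
      exact h.comm σ σ.2 τ τ.2 y y.2 }

/-- the packet of the point `z₀` for the subgroup `U` -/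
noncomputable def mkPk {E : Subgroup G} {z₀ : Y} (h : Good E z₀) (U : Subgroup G) : Pk U Y where
  E := E.subgroupOf U
  normal := h.normal.subgroupOf U
  finiteIndex := by
    have : E.FiniteIndex := ⟨h.index⟩
    infer_instance
  pts := MulAction.orbit G z₀
  finite_pts := h.fin
  stable := by
    rintro g _ ⟨g', rfl⟩
    exact ⟨(g : G) * g', mul_smul _ _ _⟩
  A := Im E z₀
  comm := cg h
  fin := by
    have := h.fin.to_subtype
    exact inferInstanceAs (Finite (hm E z₀).range)
  act := inferInstanceAs (MulAction (hm E z₀).range (MulAction.orbit G z₀))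
  rho := ((hm E z₀).rangeRestrict.comp (U.subtype.subgroupComap E) : E.subgroupOf U →* (hm E z₀).range)
  galois := fun σ z => rfl

/-- the map to the group of the packet -/
noncomputable def rr {E : Subgroup G} {z₀ : Y} (h : Good E z₀) (U : Subgroup G) : E →* (mkPk h U).A :=
  ((hm E z₀).rangeRestrict : E →* (hm E z₀).range)

theorem rr_smul {E : Subgroup G} {z₀ : Y} (h : Good E z₀) (U : Subgroup G) (σ : E)
    (z : (mkPk h U).pts) : ((rr h U σ • z : (mkPk h U).pts) : Y) = (σ : G) • (z : Y) := rfl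

theorem rr_surj {E : Subgroup G} {z₀ : Y} (h : Good E z₀) (U : Subgroup G) :
    Function.Surjective (rr h U) := (hm E z₀).rangeRestrict_surjective

/-- the subgroup of `G` -/
noncomputable def VV {E : Subgroup G} {z₀ : Y} (h : Good E z₀) (U : Subgroup G)
    (B : Subgroup (mkPk h U).A) : Subgroup G := (B.comap (rr h U)).map E.subtype

variable {E : Subgroup G} {z₀ : Y} (h : Good E z₀) (U : Subgroup G) (B : Subgroup (mkPk h U).A)
  (z : (mkPk h U).pts)

theorem val_orbit_A : Subtype.val '' (MulAction.orbit (mkPk h U).A z) =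
    MulAction.orbit E (z : Y) := by
  ext w
  constructor
  · rintro ⟨_, ⟨a, rfl⟩, rfl⟩
    obtain ⟨σ, rfl⟩ := rr_surj h U a
    exact ⟨σ, rfl⟩
  · rintro ⟨σ, rfl⟩
    exact ⟨_, ⟨rr h U σ, rfl⟩, rfl⟩

theorem val_orbit_B : Subtype.val '' (MulAction.orbit B z) = MulAction.orbit (VV h U B) (z : Y) := by
  ext w
  constructor
  · rintro ⟨_, ⟨⟨b, hb⟩, rfl⟩, rfl⟩
    obtain ⟨σ, rfl⟩ := rr_surj h U b
    exact ⟨⟨σ, Subgroup.mem_map.2 ⟨σ, hb, rfl⟩⟩, rfl⟩
  · rintro ⟨⟨g, hg⟩, rfl⟩
    obtain ⟨σ, hσ, rfl⟩ := Subgroup.mem_map.1 hg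
    exact ⟨_, ⟨⟨rr h U σ, hσ⟩, rfl⟩, rfl⟩

instance ptsFin : Finite (mkPk h U).pts := (mkPk h U).finite_pts.to_subtype

theorem orbit_eq : MulAction.orbit G (z : Y) = MulAction.orbit G z₀ :=
  MulAction.orbit_eq_iff.2 z.2

/-- the orbit of the abelian group is not larger than the Galois orbit -/
theorem card_A_le : (MulAction.orbit (mkPk h U).A z).ncard ≤ (MulAction.orbit G z₀).ncard := by
  rw [← Set.ncard_image_of_injective _ (Subtype.val_injective (p := fun y => y ∈ (mkPk h U).pts)),
    val_orbit_A]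
  apply Set.ncard_le_ncard _ h.fin
  rintro _ ⟨σ, rfl⟩
  rw [← orbit_eq h U z]
  exact ⟨σ, rfl⟩

/-- the size of the orbit of a subgroup of the abelian group -/
theorem card_G_le : (MulAction.orbit G (z : Y)).ncard ≤
    (MulAction.orbit (VV h U B) (z : Y)).ncard * B.index * E.index := by
  have h1 : (MulAction.orbit G (z : Y)).ncard ≤ (MulAction.orbit E (z : Y)).ncard * E.index :=
    orbit_ncard_le E h.index _ (by rw [orbit_eq h U z]; exact h.fin)
  have h2 : (MulAction.orbit (mkPk h U).A z).ncard ≤ (MulAction.orbit B z).ncard * B.index :=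
    orbit_ncard_le B Subgroup.index_ne_zero_of_finite z (Set.toFinite _)
  rw [← Set.ncard_image_of_injective _ (Subtype.val_injective (p := fun y => y ∈ (mkPk h U).pts)),
    val_orbit_A, ← Set.ncard_image_of_injective (MulAction.orbit B z)
      (Subtype.val_injective (p := fun y => y ∈ (mkPk h U).pts)), val_orbit_B] at h2
  exact h1.trans (Nat.mul_le_mul_right _ h2)

/-- the mean over a subgroup of the abelian group -/
theorem mean_B (f : Y → ℝ) : mean f (fun b : B => (((b : (mkPk h U).A) • z : (mkPk h U).pts) : Y)) =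
    mean f (fun y : MulAction.orbit (VV h U B) (z : Y) => (y : Y)) := by
  classical
  have hB : Fintype B := Fintype.ofFinite _
  have h1 := orb (mkPk h U).pts B (fun y => f y) z
  have h2 : mean f (fun b : B => (((b : (mkPk h U).A) • z : (mkPk h U).pts) : Y)) =
      (∑ b : B, f (b • z : (mkPk h U).pts)) / (Fintype.card B : ℝ) := mean_eq_sum _ _
  rw [h2]
  refine h1.symm.trans ?_
  have h3 : ∀ y : MulAction.orbit B z, ((y : (mkPk h U).pts) : Y) ∈
      MulAction.orbit (VV h U B) (z : Y) := by
    intro y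
    rw [← val_orbit_B]
    exact ⟨y, y.2, rfl⟩
  refine mean_congr (Equiv.ofBijective (fun y => ⟨((y : (mkPk h U).pts) : Y), h3 y⟩) ⟨?_, ?_⟩)
    fun y => rfl
  · intro y w hyw
    have h4 := congrArg Subtype.val hyw
    exact Subtype.ext (Subtype.ext h4)
  · rintro ⟨w, hw⟩
    rw [← val_orbit_B] at hw
    obtain ⟨y, hy, rfl⟩ := hw
    exact ⟨⟨y, hy⟩, rfl⟩

end mk

end Pool.Agent.P8H27.LJ
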