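import Pool.Agent.P8H27.LJ.Key
import Pool.Agent.P8H27.LJ.Mk

/-!
# Large joint orbits are equidistributed
-/

set_option autoImplicit false

namespace Pool.Agent.P8H27.LJ

open MeasureTheory Filter Topology
open scoped BoundedContinuousFunction ENNReal
open Pool.Agent.P8H27.EQ (mean mean_eq_sum mean_congr orb pim)

theorem good {G : Type} [Group G] {Y : Type} [MulAction G Y] (S : SpecialPoints G Y) {z : Y}
    (hz : z ∈ S.pts) : ∃ E : Subgroup G, Good E z ∧ E.index ≤ S.degree := by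
  obtain ⟨E, h1, h2, h3, h4⟩ := S.abelian z hz
  exact ⟨E, ⟨h1, h2, S.finite z hz, h4⟩, h3⟩

variable {G : Type} [Group G] {r : ℕ} {Y : Fin r → Type}
  [∀ j, MulAction G (Y j)] [∀ j, TopologicalSpace (Y j)] [∀ j, SecondCountableTopology (Y j)]
  [∀ j, TopologicalSpace.PseudoMetrizableSpace (Y j)] [∀ j, MeasurableSpace (Y j)]
  [∀ j, BorelSpace (Y j)]

theorem largeJoint (μ : ∀ j, ProbabilityMeasure (Y j)) (S : ∀ j, SpecialPoints G (Y j))
    {η η' : ℝ} (hη : η' < η)
    (hμ : ∀ j, ∀ f : Y j →ᵇ ℝ, LargeOrbitsConverge η (μ j) (S j) f)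
    (x : ℕ → ∀ j, Y j) (hx : ∀ i j, x i j ∈ (S j).pts)
    (hdisc : ∀ j, Tendsto (fun i => (S j).disc (x i j)) atTop atTop) (U : ℕ → Subgroup G)
    (hsize : ∀ᶠ i in atTop, ∀ j, (Nat.card (MulAction.orbit G (x i j)) : ℝ) *
        Nat.card (MulAction.orbit (U i) fun k : {k : Fin r // k ≠ j} => x i k) ≤
      ((S j).disc (x i j) : ℝ) ^ η' * Nat.card (MulAction.orbit (U i) (x i)))
    (f : (∀ j, Y j) →ᵇ ℝ) :
    Tendsto (fun i => mean f (fun y : MulAction.orbit (U i) (x i) => (y : ∀ j, Y j))) atTop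
      (𝓝 (∫ y, f y ∂(Measure.pi fun j => (μ j : Measure (Y j))))) := by
  classical
  set I := ∫ y, f y ∂(Measure.pi fun j => (μ j : Measure (Y j))) with hI
  choose E hE hEi using fun i j => good (S j) (hx i j)
  let p : ∀ i j, Pk (U i) (Y j) := fun i j => mkPk (hE i j) (U i)
  let x' : ∀ i, Tup (p i) := fun i j => ⟨x i j, MulAction.mem_orbit_self (x i j)⟩
  set η₁ := (η + η') / 2 with hη₁
  have hη1 : η' < η₁ := by rw [hη₁]; linarith
  have hη2 : η₁ < η := by rw [hη₁]; linarith
  have hkey := key μ (η := η₁) (fun i => U i) p (fun i j => (S j).disc (x i j)) hdisc x' (by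
    intro j g ε hε
    obtain ⟨D₁, h1⟩ := hμ j g ε hε
    have h2 : Tendsto (fun D : ℕ => (D : ℝ) ^ (η - η₁)) atTop atTop :=
      (tendsto_rpow_atTop (sub_pos.2 hη2)).comp tendsto_natCast_atTop_atTop
    obtain ⟨D₂, h3⟩ := eventually_atTop.1 (h2.eventually_ge_atTop ((S j).degree : ℝ))
    refine ⟨max 1 (max D₁ D₂), fun i hi B hB z => ?_⟩
    have hd1 : 1 ≤ (S j).disc (x i j) := (le_max_left _ _).trans hi
    have hd2 : D₁ ≤ (S j).disc (x i j) := (le_max_left _ _).trans ((le_max_right _ _).trans hi)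
    have hd3 : D₂ ≤ (S j).disc (x i j) := (le_max_right _ _).trans ((le_max_right _ _).trans hi)
    have hpos : (0 : ℝ) < (S j).disc (x i j) := by exact_mod_cast hd1
    have hz := z.2
    obtain ⟨g', hg'⟩ : ∃ g' : G, g' • x i j = (z : Y j) := hz
    have hzS : (z : Y j) ∈ (S j).pts := by
      rw [← hg']
      exact (S j).stable g' _ (hx i j)
    have hzd : (S j).disc (z : Y j) = (S j).disc (x i j) := by
      rw [← hg']
      exact (S j).disc_smul g' _ (hx i j)
    have h4 := h1 z hzS (by rw [hzd]; exact hd2) (VV (hE i j) (U i) B) (by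
      unfold IsLarge
      rw [hzd, Nat.card_coe_set_eq, Nat.card_coe_set_eq]
      have h5 : ((MulAction.orbit G (z : Y j)).ncard : ℝ) ≤
          (MulAction.orbit (VV (hE i j) (U i) B) (z : Y j)).ncard * B.index * (E i j).index := by
        exact_mod_cast card_G_le (hE i j) (U i) B z
      have h6 : (0 : ℝ) ≤ (MulAction.orbit (VV (hE i j) (U i) B) (z : Y j)).ncard :=
        Nat.cast_nonneg _
      have h7 : ((E i j).index : ℝ) ≤ ((S j).disc (x i j) : ℝ) ^ (η - η₁) := by
        have : ((E i j).index : ℝ) ≤ (S j).degree := by exact_mod_cast hEi i j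
        exact this.trans (h3 _ hd3)
      calc ((MulAction.orbit G (z : Y j)).ncard : ℝ) ≤
          (MulAction.orbit (VV (hE i j) (U i) B) (z : Y j)).ncard * B.index * (E i j).index := h5
        _ ≤ (MulAction.orbit (VV (hE i j) (U i) B) (z : Y j)).ncard *
            ((S j).disc (x i j) : ℝ) ^ η₁ * ((S j).disc (x i j) : ℝ) ^ (η - η₁) := by
          apply mul_le_mul _ h7 (Nat.cast_nonneg _) (mul_nonneg h6 (Real.rpow_nonneg hpos.le _))
          exact mul_le_mul_of_nonneg_left hB h6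
        _ = ((S j).disc (x i j) : ℝ) ^ η *
            (MulAction.orbit (VV (hE i j) (U i) B) (z : Y j)).ncard := by
          rw [mul_assoc, ← Real.rpow_add hpos]
          rw [show η₁ + (η - η₁) = η by ring]
          ring)
    rw [← mean_B] at h4
    exact h4) f
  have hidx : ∀ᶠ i in atTop, ∀ j, ((∏ k, (S k).degree : ℕ) : ℝ) *
      ((S j).disc (x i j) : ℝ) ^ η' ≤ ((S j).disc (x i j) : ℝ) ^ η₁ := by
    rw [Filter.eventually_all]
    intro j
    have h1 : Tendsto (fun D : ℕ => (D : ℝ) ^ (η₁ - η')) atTop atTop :=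
      (tendsto_rpow_atTop (sub_pos.2 hη1)).comp tendsto_natCast_atTop_atTop
    have h2 := (h1.comp (hdisc j)).eventually_ge_atTop ((∏ k, (S k).degree : ℕ) : ℝ)
    filter_upwards [h2, (hdisc j).eventually_ge_atTop 1] with i hi hd
    have hpos : (0 : ℝ) < (S j).disc (x i j) := by exact_mod_cast hd
    calc ((∏ k, (S k).degree : ℕ) : ℝ) * ((S j).disc (x i j) : ℝ) ^ η'
        ≤ ((S j).disc (x i j) : ℝ) ^ (η₁ - η') * ((S j).disc (x i j) : ℝ) ^ η' :=
          mul_le_mul_of_nonneg_right hi (Real.rpow_nonneg hpos.le _)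
      _ = ((S j).disc (x i j) : ℝ) ^ η₁ := by
          rw [← Real.rpow_add hpos]
          congr 1
          ring
  rw [Metric.tendsto_atTop]
  intro ε hε
  obtain ⟨i₀, hi₀⟩ := eventually_atTop.1 ((hkey (ε / 2) (half_pos hε)).and (hidx.and hsize))
  refine ⟨i₀, fun i hi => ?_⟩
  obtain ⟨hk, hj, hsz⟩ := hi₀ i hi
  have hN : (N (p i)).index ≤ ∏ k, (S k).degree := by
    refine (Subgroup.index_iInf_le _).trans (Finset.prod_le_prod' fun k _ => ?_)
    have : (E i k).Normal := (hE i k).normal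
    have h1 : (E i k).relIndex (U i) ∣ (E i k).index := Subgroup.relIndex_dvd_index_of_normal _ _
    exact (Nat.le_of_dvd (Nat.pos_of_ne_zero (hE i k).index) h1).trans (hEi i k)
  have hmain := near_G (p i) (fun y => f (pt (p i) y)) (x' i) (I := I) (ε := ε / 2) (by
    intro y hy z
    refine hk (fun j => Bj (p i) y j) (fun j => ?_) z
    have h0 : (0 : ℝ) ≤ ((S j).disc (x i j) : ℝ) ^ η' := Real.rpow_nonneg (Nat.cast_nonneg _) _
    have h1 : ((MulAction.orbit G (x i j)).ncard : ℝ) *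
        (MulAction.orbit (U i) (res (p i) j (x' i))).ncard ≤
        ((S j).disc (x i j) : ℝ) ^ η' * (MulAction.orbit (U i) (x' i)).ncard := by
      have h2 := hsz j
      have h3 : Nat.card (MulAction.orbit (U i) (x i)) =
          (MulAction.orbit (U i) (x' i)).ncard :=
        orbit_card (p i) (x' i)
      have h4 : Nat.card (MulAction.orbit (U i) fun k : {k : Fin r // k ≠ j} => x i k) =
          (MulAction.orbit (U i) (res (p i) j (x' i))).ncard :=
        orbit_rcard (p i) j (res (p i) j (x' i))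
      rw [h3, h4, Nat.card_coe_set_eq] at h2
      exact h2
    have ha : ((MulAction.orbit (p i j).A (y.fn j)).ncard : ℝ) ≤
        (MulAction.orbit G (x i j)).ncard := by
      exact_mod_cast card_A_le (hE i j) (U i) (y.fn j)
    have h5 := index_Bj_le (p i) j hy h0 ha h1
    calc ((Bj (p i) y j).index : ℝ) ≤
        ((N (p i)).index : ℝ) * ((S j).disc (x i j) : ℝ) ^ η' := h5
      _ ≤ ((∏ k, (S k).degree : ℕ) : ℝ) * ((S j).disc (x i j) : ℝ) ^ η' := by
          apply mul_le_mul_of_nonneg_right _ h0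
          exact_mod_cast hN
      _ ≤ _ := hj j)
  have hO : mean f (fun y : MulAction.orbit (U i) (x i) => (y : ∀ j, Y j)) =
      mean (fun y => f (pt (p i) y))
        (fun y : MulAction.orbit (U i) (x' i) => (y : Tup (p i))) := by
    symm
    have h1 : ∀ y : MulAction.orbit (U i) (x' i), pt (p i) y ∈ MulAction.orbit (U i) (x i) := by
      rintro ⟨_, ⟨g, rfl⟩⟩
      exact ⟨g, rfl⟩
    refine mean_congr (Equiv.ofBijective (fun y => ⟨pt (p i) y, h1 y⟩) ⟨?_, ?_⟩) fun y => rfl
    · intro y z h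
      apply Subtype.ext
      exact pt_inj (p i) (congrArg Subtype.val h)
    · rintro ⟨_, g, rfl⟩
      exact ⟨⟨g • x' i, ⟨g, rfl⟩⟩, rfl⟩
  rw [Real.dist_eq, hO]
  exact lt_of_le_of_lt hmain (half_lt_self hε)

end Pool.Agent.P8H27.LJ
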