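import Pool.Agent.P8H27.LJ.Pk

/-!
# Orbits of tuples
-/

set_option autoImplicit false

namespace Pool.Agent.P8H27.LJ

open Pool.Agent.P8H27.EQ (mean mean_eq_sum mean_congr orb)

section tuple

variable {G : Type} [Group G] {r : ℕ} {Y : Fin r → Type} [∀ j, MulAction G (Y j)]
  (p : ∀ j, Pk G (Y j))

/-- the finite set of the tuples -/
def Tup : Type := ∀ j, (p j).pts

instance ptsFinite (j : Fin r) : Finite (p j).pts := (p j).finite_pts

instance tupFinite : Finite (Tup p) := inferInstanceAs (Finite (∀ j, (p j).pts))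

/-- the product of the groups `A` -/
def AA : Type := ∀ j, (p j).A

instance : CommGroup (AA p) := inferInstanceAs (CommGroup (∀ j, (p j).A))

instance : Finite (AA p) := inferInstanceAs (Finite (∀ j, (p j).A))

/-- the coordinates -/
def AA.fn {p : ∀ j, Pk G (Y j)} (a : AA p) : ∀ j, (p j).A := a

/-- the coordinates -/
def Tup.fn {p : ∀ j, Pk G (Y j)} (y : Tup p) : ∀ j, (p j).pts := y

instance aaAct : MulAction (AA p) (Tup p) where
  smul a y := fun j => a.fn j • y.fn j
  one_smul y := by
    funext j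
    exact one_smul _ (y.fn j)
  mul_smul a b y := by
    funext j
    exact mul_smul (a.fn j) (b.fn j) (y.fn j)

theorem aa_smul (a : AA p) (y : Tup p) (j : Fin r) : (a • y).fn j = a.fn j • y.fn j := rfl

instance gAct : MulAction G (Tup p) where
  smul g y := fun j => ⟨g • (y.fn j : Y j), (p j).stable g _ (y.fn j).2⟩
  one_smul y := by
    funext j
    exact Subtype.ext (one_smul _ _)
  mul_smul g h y := by
    funext j
    exact Subtype.ext (mul_smul _ _ _)

/-- the tuple as a point of the product -/
def pt (y : Tup p) : ∀ j, Y j := fun j => y.fn j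

theorem pt_inj : Function.Injective (pt p) := by
  intro x y h
  funext j
  exact Subtype.ext (congrFun h j)

theorem pt_smul (g : G) (y : Tup p) : pt p (g • y) = g • pt p y := rfl

/-- the intersection of the groups `E` -/
def N : Subgroup G := ⨅ j, (p j).E

theorem N_le (j : Fin r) : N p ≤ (p j).E := iInf_le _ j

instance N_normal : (N p).Normal := Subgroup.normal_iInf_normal fun j => (p j).normal

instance N_finite : (N p).FiniteIndex := Subgroup.finiteIndex_iInf fun j => (p j).finiteIndex

/-- the homomorphism to the product -/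
def rh : N p →* AA p where
  toFun σ := fun j => (p j).rho (Subgroup.inclusion (N_le p j) σ)
  map_one' := by
    funext j
    exact map_one _
  map_mul' σ τ := by
    funext j
    show (p j).rho (Subgroup.inclusion (N_le p j) (σ * τ)) =
      (p j).rho (Subgroup.inclusion (N_le p j) σ) * (p j).rho (Subgroup.inclusion (N_le p j) τ)
    rw [map_mul, map_mul]

theorem rh_smul (σ : N p) (y : Tup p) : rh p σ • y = (σ : G) • y := by
  funext j
  apply Subtype.ext
  exact ((p j).galois (Subgroup.inclusion (N_le p j) σ) (y.fn j)).symm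

/-- the image -/
abbrev Hg : Subgroup (AA p) := (rh p).range

theorem orbit_H (y : Tup p) : MulAction.orbit (Hg p) y = MulAction.orbit (N p) y := by
  apply Set.Subset.antisymm
  · rintro _ ⟨⟨_, σ, rfl⟩, rfl⟩
    exact ⟨σ, (rh_smul p σ y).symm⟩
  · rintro _ ⟨σ, rfl⟩
    exact ⟨⟨rh p σ, ⟨σ, rfl⟩⟩, rh_smul p σ y⟩

/-- the image and the stabilizer generate the group `Hh` -/
def Hh (y : Tup p) : Subgroup (AA p) := Hg p ⊔ MulAction.stabilizer (AA p) y

theorem orbit_Hh (y : Tup p) : MulAction.orbit (Hh p y) y = MulAction.orbit (Hg p) y := by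
  apply Set.Subset.antisymm
  · rintro _ ⟨⟨a, ha⟩, rfl⟩
    unfold Hh at ha
    rw [Subgroup.mem_sup] at ha
    obtain ⟨h, hh, s, hs, rfl⟩ := ha
    refine ⟨⟨h, hh⟩, ?_⟩
    show h • y = (h * s) • y
    rw [mul_smul, MulAction.mem_stabilizer_iff.1 hs]
  · rintro _ ⟨⟨h, hh⟩, rfl⟩
    exact ⟨⟨h, Subgroup.mem_sup_left hh⟩, rfl⟩

/-- the size of a Galois orbit -/
theorem orbit_le (y : Tup p) :
    (MulAction.orbit G y).ncard ≤ (MulAction.orbit (N p) y).ncard * (N p).index := by
  have h1 : (MulAction.stabilizer G y ⊓ N p).relIndex (N p) * (N p).index =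
      (MulAction.stabilizer G y ⊓ N p).index :=
    Subgroup.relIndex_mul_index inf_le_right
  rw [Subgroup.inf_relIndex_right] at h1
  have h2 : (MulAction.stabilizer G y).relIndex (N p) = (MulAction.orbit (N p) y).ncard := by
    have h4 : (MulAction.stabilizer G y).relIndex (N p) =
        (MulAction.stabilizer (N p) y).index := rfl
    rw [h4, MulAction.index_stabilizer]
  have h3 : (MulAction.orbit G y).ncard = (MulAction.stabilizer G y).index :=
    (MulAction.index_stabilizer G y).symm
  rw [h3, ← h2, h1]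
  have h5 : (MulAction.stabilizer G y ⊓ N p).index ≠ 0 := by
    rw [← h1, h2]
    exact mul_ne_zero (Set.ncard_ne_zero_of_mem (MulAction.mem_orbit_self y) (Set.toFinite _))
      Subgroup.FiniteIndex.index_ne_zero
  exact Nat.le_of_dvd (Nat.pos_of_ne_zero h5) (Subgroup.index_dvd_of_le inf_le_left)

theorem orbit_pt (x : Tup p) :
    MulAction.orbit G (pt p x) = pt p '' MulAction.orbit G x := by
  ext z
  constructor
  · rintro ⟨g, rfl⟩
    exact ⟨g • x, ⟨g, rfl⟩, rfl⟩
  · rintro ⟨_, ⟨g, rfl⟩, rfl⟩
    exact ⟨g, rfl⟩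

theorem orbit_card (x : Tup p) :
    Nat.card (MulAction.orbit G (pt p x)) = (MulAction.orbit G x).ncard := by
  rw [Nat.card_coe_set_eq, orbit_pt, Set.ncard_image_of_injective _ (pt_inj p)]

/-- the subgroup of the elements of `A j` which, as elements of the product, belong to `Hh` -/
def Bj (y : Tup p) (j : Fin r) : Subgroup (p j).A :=
  (Hh p y).comap (MonoidHom.mulSingle (fun j => (p j).A) j : (p j).A →* (∀ j, (p j).A))

theorem Bj_index (y : Tup p) (j : Fin r) : (Bj p y j).index ≤ (Hh p y).index := by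
  unfold Bj
  rw [Subgroup.index_comap]
  have h1 : (Hh p y).index ≠ 0 := Subgroup.index_ne_zero_of_finite
  exact Nat.le_of_dvd (Nat.pos_of_ne_zero h1) (Subgroup.relIndex_dvd_index_of_normal _ _)

theorem Bj_mem (y : Tup p) (b : ∀ j, Bj p y j) :
    ((fun j => (b j : (p j).A) : ∀ j, (p j).A) : AA p) ∈ Hh p y := by
  classical
  have h1 : (fun j => (b j : (p j).A) : ∀ j, (p j).A) =
      ∏ j, Pi.mulSingle j (b j : (p j).A) := by
    rw [Finset.univ_prod_mulSingle]
  rw [h1]
  exact Subgroup.prod_mem (G := ∀ j, (p j).A) (Hh p y) fun j _ => (b j).2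

end tuple

end Pool.Agent.P8H27.LJ
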