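import Pool.Agent.P8H27.EQ.Pim

/-!
# Galois orbits of special points: the abelian groups through which the Galois groups act
-/

set_option autoImplicit false

namespace Pool.Agent.P8H27.LJ

/-- A finite `G`-stable set `pts`, on which a normal subgroup `E` of finite index of `G` acts through a homomorphism
to a finite commutative group `A`. -/
structure Pk (G : Type) [Group G] (Y : Type) [MulAction G Y] where
  E : Subgroup G
  normal : E.Normal
  finiteIndex : E.FiniteIndex
  pts : Set Y
  finite_pts : pts.Finite
  stable : ∀ (g : G) (z : Y), z ∈ pts → g • z ∈ pts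
  A : Type
  [comm : CommGroup A]
  [fin : Finite A]
  [act : MulAction A pts]
  rho : E →* A
  galois : ∀ (σ : E) (z : pts), (σ : G) • (z : Y) = (rho σ • z : pts)

attribute [instance] Pk.comm Pk.fin Pk.act Pk.normal Pk.finiteIndex

end Pool.Agent.P8H27.LJ
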