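import Pool.Agent.P8H27.LJ.Main

/-!
# The sizes of the orbits
-/

set_option autoImplicit false

namespace Pool.Agent.P8H27.LJ

open MeasureTheory Filter Topology
open scoped BoundedContinuousFunction ENNReal
open Pool.Agent.P8H27.EQ (mean mean_eq_sum mean_congr orb pim)

section size

variable {G : Type} [Group G] {r : ℕ} {Y : Fin r → Type} [∀ j, MulAction G (Y j)]

/-- the orbit of the tuple -/
theorem card_mul (U : Subgroup G) (x : ∀ j, Y j) (j : Fin r) :
    Nat.card (MulAction.orbit U fun k : {k : Fin r // k ≠ j} => x k) *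
      Nat.card (MulAction.orbit (others U x j) (x j)) = Nat.card (MulAction.orbit U x) := by
  set x' : ∀ k : {k : Fin r // k ≠ j}, Y k := fun k => x k with hx'
  have h1 : MulAction.stabilizer U x ≤ MulAction.stabilizer U x' := by
    intro g hg
    rw [MulAction.mem_stabilizer_iff] at hg ⊢
    funext k
    exact congrFun hg k
  have h2 : (MulAction.stabilizer U x).relIndex (MulAction.stabilizer U x') *
      (MulAction.stabilizer U x').index = (MulAction.stabilizer U x).index :=
    Subgroup.relIndex_mul_index h1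
  rw [MulAction.index_stabilizer, MulAction.index_stabilizer] at h2
  have h3 : (MulAction.stabilizer U x).relIndex (MulAction.stabilizer U x') =
      (MulAction.orbit (MulAction.stabilizer U x') x).ncard := by
    have h4 : (MulAction.stabilizer U x).relIndex (MulAction.stabilizer U x') =
        (MulAction.stabilizer (MulAction.stabilizer U x') x).index := rfl
    rw [h4, MulAction.index_stabilizer]
  have h5 : (MulAction.orbit (MulAction.stabilizer U x') x).ncard =
      (MulAction.orbit (others U x j) (x j)).ncard := by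
    have h6 : ∀ z ∈ MulAction.orbit (MulAction.stabilizer U x') x, ∀ k, k ≠ j → z k = x k := by
      rintro _ ⟨⟨a, ha⟩, rfl⟩ k hk
      exact congrFun (MulAction.mem_stabilizer_iff.1 ha) ⟨k, hk⟩
    apply Set.ncard_congr (fun z _ => z j)
    · rintro _ ⟨⟨a, ha⟩, rfl⟩
      exact ⟨⟨a, a.2, fun k hk => congrFun (MulAction.mem_stabilizer_iff.1 ha) ⟨k, hk⟩⟩, rfl⟩
    · intro z w hz hw h
      funext k
      by_cases hk : k = j
      · subst hk
        exact h
      · exact (h6 z hz k hk).trans (h6 w hw k hk).symm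
    · rintro _ ⟨⟨g, hg⟩, rfl⟩
      have hs : (⟨g, hg.1⟩ : U) ∈ MulAction.stabilizer U x' := by
        rw [MulAction.mem_stabilizer_iff]
        funext k
        exact hg.2 k k.2
      exact ⟨_, ⟨⟨⟨g, hg.1⟩, hs⟩, rfl⟩, rfl⟩
  rw [h3, h5] at h2
  rw [Nat.card_coe_set_eq, Nat.card_coe_set_eq, Nat.card_coe_set_eq, mul_comm]
  exact h2

/-- the orbit of a subgroup is not larger -/
theorem orbit_sub {X : Type} [MulAction G X] (U : Subgroup G) (z : X)
    (hfin : (MulAction.orbit G z).Finite) :
    Nat.card (MulAction.orbit U z) ≤ Nat.card (MulAction.orbit G z) := by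
  rw [Nat.card_coe_set_eq, Nat.card_coe_set_eq]
  apply Set.ncard_le_ncard _ hfin
  rintro _ ⟨σ, rfl⟩
  exact ⟨σ, rfl⟩

/-- the orbit of a tuple is not larger than the product of the orbits -/
theorem card_le_prod {ι : Type} [Fintype ι] {Z : ι → Type} [∀ j, MulAction G (Z j)] (U : Subgroup G)
    (x : ∀ j, Z j) (hfin : ∀ j, (MulAction.orbit G (x j)).Finite) :
    Nat.card (MulAction.orbit U x) ≤ ∏ j, Nat.card (MulAction.orbit G (x j)) := by
  classical
  have : ∀ j, Finite (MulAction.orbit G (x j)) := fun j => (hfin j).to_subtype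
  rw [← Nat.card_pi]
  apply Nat.card_le_card_of_injective
    (fun y : MulAction.orbit U x => fun j => (⟨(y : ∀ j, Z j) j, by
      obtain ⟨_, ⟨g, rfl⟩⟩ := y
      exact ⟨g, rfl⟩⟩ : MulAction.orbit G (x j)))
  intro y z h
  apply Subtype.ext
  funext j
  exact congrArg Subtype.val (congrFun h j)

/-- if the orbit of the tuple is large then the coordinates have large orbits over the others -/
theorem large_of_prod (S : ∀ j, SpecialPoints G (Y j)) {η : ℝ} (U : Subgroup G) (x : ∀ j, Y j)
    (hx : ∀ j, x j ∈ (S j).pts) (j : Fin r)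
    (h : ((∏ k, Nat.card (MulAction.orbit G (x k)) : ℕ) : ℝ) ≤
      ((S j).disc (x j) : ℝ) ^ η * Nat.card (MulAction.orbit U x)) :
    IsLarge (S j) η (others U x j) (x j) := by
  classical
  unfold IsLarge
  have h1 := card_mul U x j
  have h2 : Nat.card (MulAction.orbit U fun k : {k : Fin r // k ≠ j} => x k) ≤
      ∏ k : {k : Fin r // k ≠ j}, Nat.card (MulAction.orbit G (x k)) :=
    card_le_prod U (fun k : {k : Fin r // k ≠ j} => x k) fun k => (S k).finite _ (hx k)
  have h3 : ∏ k, Nat.card (MulAction.orbit G (x k)) = Nat.card (MulAction.orbit G (x j)) *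
      ∏ k : {k : Fin r // k ≠ j}, Nat.card (MulAction.orbit G (x k)) := by
    rw [← Finset.mul_prod_erase Finset.univ _ (Finset.mem_univ j)]
    congr 1
    rw [← Finset.prod_subtype (Finset.univ.erase j) (by intro k; simp)
      (fun k => Nat.card (MulAction.orbit G (x k)))]
  have h4 : 0 < ∏ k : {k : Fin r // k ≠ j}, Nat.card (MulAction.orbit G (x k)) := by
    apply Finset.prod_pos
    intro k _
    have := ((S k).finite _ (hx k)).to_subtype
    have : Nonempty (MulAction.orbit G (x (k : Fin r))) := ⟨⟨_, MulAction.mem_orbit_self _⟩⟩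
    exact Nat.card_pos
  have h4' : (0 : ℝ) <
      ((∏ k : {k : Fin r // k ≠ j}, Nat.card (MulAction.orbit G (x k)) : ℕ) : ℝ) := by
    exact_mod_cast h4
  have h5 : (0 : ℝ) ≤ ((S j).disc (x j) : ℝ) ^ η * Nat.card (MulAction.orbit (others U x j) (x j)) :=
    mul_nonneg (Real.rpow_nonneg (Nat.cast_nonneg _) _) (Nat.cast_nonneg _)
  rw [h3, ← h1, Nat.cast_mul, Nat.cast_mul] at h
  have h6 : ((Nat.card (MulAction.orbit U fun k : {k : Fin r // k ≠ j} => x k) : ℕ) : ℝ) ≤
      ((∏ k : {k : Fin r // k ≠ j}, Nat.card (MulAction.orbit G (x k)) : ℕ) : ℝ) := by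
    exact_mod_cast h2
  refine le_of_mul_le_mul_right ?_ h4'
  refine h.trans ?_
  calc ((S j).disc (x j) : ℝ) ^ η *
        (((Nat.card (MulAction.orbit U fun k : {k : Fin r // k ≠ j} => x k) : ℕ) : ℝ) *
        ((Nat.card (MulAction.orbit (others U x j) (x j)) : ℕ) : ℝ))
      = (((S j).disc (x j) : ℝ) ^ η * Nat.card (MulAction.orbit (others U x j) (x j))) *
        ((Nat.card (MulAction.orbit U fun k : {k : Fin r // k ≠ j} => x k) : ℕ) : ℝ) := by ring
    _ ≤ _ := mul_le_mul_of_nonneg_left h6 h5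

/-- large subgroups inherit large degrees -/
theorem large_sub (S : ∀ j, SpecialPoints G (Y j)) {η δ : ℝ} (U : Subgroup G) (x : ∀ j, Y j)
    (hx : ∀ j, x j ∈ (S j).pts) (j : Fin r) (hd : 0 < (S j).disc (x j))
    (h : IsLarge (S j) η (others (⊤ : Subgroup G) x j) (x j))
    (hU : (Nat.card (MulAction.orbit G x) : ℝ) ≤
      ((S j).disc (x j) : ℝ) ^ δ * Nat.card (MulAction.orbit U x)) :
    IsLarge (S j) (η + δ) (others U x j) (x j) := by
  classical
  unfold IsLarge at h ⊢
  have hfin : (MulAction.orbit G x).Finite := by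
    have h1 : (Set.pi Set.univ fun k => MulAction.orbit G (x k)).Finite :=
      Set.Finite.pi fun k => (S k).finite _ (hx k)
    refine h1.subset ?_
    rintro _ ⟨g, rfl⟩ k _
    exact ⟨g, rfl⟩
  have hfin' : (MulAction.orbit G fun k : {k : Fin r // k ≠ j} => x k).Finite := by
    refine (hfin.image fun y : (∀ j, Y j) => fun k : {k : Fin r // k ≠ j} => y k).subset ?_
    rintro _ ⟨g, rfl⟩
    exact ⟨g • x, ⟨g, rfl⟩, rfl⟩
  have htop : ∀ {X : Type} [MulAction G X] (z : X),
      MulAction.orbit (⊤ : Subgroup G) z = MulAction.orbit G z := by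
    intro X _ z
    ext w
    constructor
    · rintro ⟨g, rfl⟩
      exact ⟨g, rfl⟩
    · rintro ⟨g, rfl⟩
      exact ⟨⟨g, trivial⟩, rfl⟩
  have h1 := card_mul U x j
  have h2 := card_mul (⊤ : Subgroup G) x j
  rw [htop, htop] at h2
  have h3 := orbit_sub U (fun k : {k : Fin r // k ≠ j} => x k) hfin'
  have hpos : 0 < Nat.card (MulAction.orbit G fun k : {k : Fin r // k ≠ j} => x k) := by
    have := hfin'.to_subtype
    have : Nonempty (MulAction.orbit G fun k : {k : Fin r // k ≠ j} => x k) :=
      ⟨⟨_, MulAction.mem_orbit_self _⟩⟩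
    exact Nat.card_pos
  have hpos' : (0 : ℝ) < Nat.card (MulAction.orbit G fun k : {k : Fin r // k ≠ j} => x k) := by
    exact_mod_cast hpos
  have hdp : (0 : ℝ) < (S j).disc (x j) := by exact_mod_cast hd
  have hη0 : (0 : ℝ) ≤ ((S j).disc (x j) : ℝ) ^ η := Real.rpow_nonneg hdp.le _
  have hδ0 : (0 : ℝ) ≤ ((S j).disc (x j) : ℝ) ^ δ := Real.rpow_nonneg hdp.le _
  have h1' : ((Nat.card (MulAction.orbit U fun k : {k : Fin r // k ≠ j} => x k) : ℕ) : ℝ) *
      Nat.card (MulAction.orbit (others U x j) (x j)) = Nat.card (MulAction.orbit U x) := by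
    exact_mod_cast h1
  have h2' : ((Nat.card (MulAction.orbit G fun k : {k : Fin r // k ≠ j} => x k) : ℕ) : ℝ) *
      Nat.card (MulAction.orbit (others (⊤ : Subgroup G) x j) (x j)) = Nat.card (MulAction.orbit G x) := by
    exact_mod_cast h2
  have h3' : ((Nat.card (MulAction.orbit U fun k : {k : Fin r // k ≠ j} => x k) : ℕ) : ℝ) ≤
      Nat.card (MulAction.orbit G fun k : {k : Fin r // k ≠ j} => x k) := by
    exact_mod_cast h3
  refine le_of_mul_le_mul_left ?_ hpos'
  calc (Nat.card (MulAction.orbit G fun k : {k : Fin r // k ≠ j} => x k) : ℝ) *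
        Nat.card (MulAction.orbit G (x j))
      ≤ (Nat.card (MulAction.orbit G fun k : {k : Fin r // k ≠ j} => x k) : ℝ) *
        (((S j).disc (x j) : ℝ) ^ η * Nat.card (MulAction.orbit (others (⊤ : Subgroup G) x j) (x j))) :=
        mul_le_mul_of_nonneg_left h hpos'.le
    _ = ((S j).disc (x j) : ℝ) ^ η * Nat.card (MulAction.orbit G x) := by
        rw [← h2']
        ring
    _ ≤ ((S j).disc (x j) : ℝ) ^ η *
        (((S j).disc (x j) : ℝ) ^ δ * Nat.card (MulAction.orbit U x)) :=
        mul_le_mul_of_nonneg_left hU hη0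
    _ = (((S j).disc (x j) : ℝ) ^ η * ((S j).disc (x j) : ℝ) ^ δ *
        Nat.card (MulAction.orbit (others U x j) (x j))) *
        (Nat.card (MulAction.orbit U fun k : {k : Fin r // k ≠ j} => x k) : ℝ) := by
        rw [← h1']
        ring
    _ ≤ (((S j).disc (x j) : ℝ) ^ η * ((S j).disc (x j) : ℝ) ^ δ *
        Nat.card (MulAction.orbit (others U x j) (x j))) *
        (Nat.card (MulAction.orbit G fun k : {k : Fin r // k ≠ j} => x k) : ℝ) :=
        mul_le_mul_of_nonneg_left h3' (mul_nonneg (mul_nonneg hη0 hδ0) (Nat.cast_nonneg _))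
    _ = _ := by
        rw [Real.rpow_add hdp]
        ring

end size

end Pool.Agent.P8H27.LJ
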